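import Mathlib
import Pool.Agent.LGO.U.RMob
import Pool.Agent.LGO.U.RInt
import Pool.Agent.LGO.H.BdC
import Pool.Agent.LGO.Mul.Ht

/-!
# LGO/P: heights on rational curves, moving a point at infinity, polynomial bounds
-/

namespace Pool.Agent.LGO.P

open Polynomial Pool.Agent.Hhelper14.ZPL Pool.Agent.LGO Pool.Agent.LGO.U

/-- `mob` also for constants -/
theorem P_mob (c : Qb) {A B : Polynomial Qb} (h : IsCoprime A B) :
    ∃ A' B' : Polynomial Qb, IsCoprime A' B' ∧ rdeg A' B' = rdeg A B ∧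
      (∀ t : ℂ, t ≠ c → (aeval (t - c)⁻¹ A' : ℂ) = (t - c)⁻¹ ^ rdeg A B * aeval t A ∧
        (aeval (t - c)⁻¹ B' : ℂ) = (t - c)⁻¹ ^ rdeg A B * aeval t B) ∧
      (1 ≤ rdeg A B → B.eval c = 0 → B'.natDegree < A'.natDegree) ∧
      (B.eval c ≠ 0 → A'.natDegree ≤ B'.natDegree) := by
  rcases Nat.eq_zero_or_pos (rdeg A B) with h0 | h0
  · have hA : A.natDegree = 0 := by
      have : A.natDegree ≤ rdeg A B := le_max_left _ _
      omega
    have hB : B.natDegree = 0 := by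
      have : B.natDegree ≤ rdeg A B := le_max_right _ _
      omega
    have hconst : ∀ P : Polynomial Qb, P.natDegree = 0 → ∀ s t : ℂ,
        (aeval s P : ℂ) = aeval t P := by
      intro P hP s t
      rw [eq_C_of_natDegree_eq_zero hP, aeval_C, aeval_C]
    refine ⟨A, B, h, rfl, fun t _ => ?_, fun h1 => by omega, fun _ => by rw [hA, hB]⟩
    rw [h0, pow_zero, one_mul, one_mul]
    exact ⟨hconst A hA _ _, hconst B hB _ _⟩
  · obtain ⟨A', B', h1, h2, h3, h4, h5⟩ := mob c h h0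
    exact ⟨A', B', h1, h2, h3, fun _ => h4, h5⟩

/-- the parameter is bounded by the coordinate with a pole at infinity -/
theorem P_house {A B : Polynomial Qb} (h : IsCoprime A B) (hd : B.natDegree < A.natDegree) :
    ∃ C : ℝ, 1 ≤ C ∧ ∀ (s : ℂ ≃+* ℂ) (t x : ℂ), (aeval t A : ℂ) = x * aeval t B →
      ‖s t‖ ≤ C * max 1 ‖s x‖ := by
  obtain ⟨C₁, hC₁, h₁⟩ := comp_x h
  obtain ⟨C₂, hC₂, h₂⟩ := comp_le B
  refine ⟨C₁ * C₂, by nlinarith, fun s t x hx => ?_⟩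
  have h3 := (h₁ s t x hx).2
  have h4 := h₂ s t
  have hr : rdeg A B = B.natDegree + (A.natDegree - B.natDegree) := by
    have : rdeg A B = A.natDegree := max_eq_left hd.le
    omega
  obtain ⟨M, hM⟩ : ∃ M : ℝ, M = max 1 ‖s t‖ := ⟨_, rfl⟩
  obtain ⟨X, hX⟩ : ∃ X : ℝ, X = max 1 ‖s x‖ := ⟨_, rfl⟩
  rw [← hM, ← hX] at h3
  rw [← hM] at h4
  rw [← hX]
  have hM1 : 1 ≤ M := by rw [hM]; exact le_max_left _ _
  have hX1 : 1 ≤ X := by rw [hX]; exact le_max_left _ _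
  have hMt : ‖s t‖ ≤ M := by rw [hM]; exact le_max_right _ _
  obtain ⟨e, he⟩ : ∃ e : ℕ, e = A.natDegree - B.natDegree := ⟨_, rfl⟩
  have he1 : 1 ≤ e := by omega
  rw [hr, ← he, pow_add] at h3
  have hp : 0 < M ^ B.natDegree := pow_pos (by linarith) _
  have h5 : M ^ B.natDegree * M ^ e ≤ M ^ B.natDegree * (C₁ * C₂ * X) := by
    refine h3.trans ?_
    calc C₁ * (‖s (aeval t B : ℂ)‖ * X) ≤ C₁ * ((C₂ * M ^ B.natDegree) * X) := by gcongr
      _ = M ^ B.natDegree * (C₁ * C₂ * X) := by ring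
  have h6 : M ^ e ≤ C₁ * C₂ * X := le_of_mul_le_mul_left h5 hp
  calc ‖s t‖ ≤ M := hMt
    _ = M ^ 1 := (pow_one M).symm
    _ ≤ M ^ e := pow_le_pow_right₀ hM1 he1
    _ ≤ C₁ * C₂ * X := h6

/-- Liouville's inequality for the denominator -/
theorem P_ht {A B : Polynomial Qb} (h : IsCoprime A B) (r : ℕ) (hr : 0 < r) :
    ∃ C : ℝ, 1 ≤ C ∧ ∀ (K : IntermediateField ℚ ℂ) [FiniteDimensional ℚ K] (x t : ℂ) (L : ℝ),
      IsIntegral ℤ ((r : ℂ) * t) → (aeval t A : ℂ) = x * aeval t B →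
      (aeval t B : ℂ) ≠ 0 → (aeval t B : ℂ) ∈ K → 0 ≤ L →
      (∀ s : ℂ ≃+* ℂ, ‖s t‖ ≤ Real.exp L) →
        ∀ s : ℂ ≃+* ℂ, ‖s x‖ ≤ Real.exp (C * Module.finrank ℚ K * (1 + L)) := by
  obtain ⟨C₁, hC₁, h₁⟩ := comp_x h
  obtain ⟨C₂, hC₂, h₂⟩ := comp_le B
  obtain ⟨m₀, hm₀, h₃⟩ := RInt_den B
  obtain ⟨r', hr'e⟩ : ∃ r' : ℕ, r' = m₀ * r ^ B.natDegree := ⟨_, rfl⟩
  have hr' : 0 < r' := by rw [hr'e]; positivity
  have hr1 : (1 : ℝ) ≤ r' := by exact_mod_cast hr'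
  have hl1 : 0 ≤ Real.log C₁ := Real.log_nonneg hC₁
  have hl2 : 0 ≤ Real.log C₂ := Real.log_nonneg hC₂
  have hl3 : 0 ≤ Real.log r' := Real.log_nonneg hr1
  have hn1 : (0 : ℝ) ≤ (rdeg A B : ℝ) := Nat.cast_nonneg _
  have hn2 : (0 : ℝ) ≤ (B.natDegree : ℝ) := Nat.cast_nonneg _
  set C₃ : ℝ := Real.log r' + Real.log C₂ + B.natDegree with hC₃
  have hC₃0 : 0 ≤ C₃ := by linarith
  refine ⟨Real.log C₁ + rdeg A B + 2 * C₃ + 1, by linarith, ?_⟩
  intro K _ x t L hrt heq hB0 hBK hL hs s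
  have hD1 : (1 : ℝ) ≤ Module.finrank ℚ K := by exact_mod_cast Module.finrank_pos
  have hL1 : (0 : ℝ) ≤ 1 + L := by linarith
  have hmax : ∀ s : ℂ ≃+* ℂ, max 1 ‖s t‖ ≤ Real.exp L := fun s =>
    max_le (Real.one_le_exp hL) (hs s)
  have hmax0 : ∀ s : ℂ ≃+* ℂ, (0 : ℝ) ≤ max 1 ‖s t‖ := fun s => zero_le_one.trans (le_max_left _ _)
  have hup : ∀ s : ℂ ≃+* ℂ, ‖s (aeval t B : ℂ)‖ ≤ Real.exp (C₃ * (1 + L)) := by
    intro s
    calc ‖s (aeval t B : ℂ)‖ ≤ C₂ * max 1 ‖s t‖ ^ B.natDegree := h₂ s t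
      _ ≤ C₂ * Real.exp L ^ B.natDegree :=
          mul_le_mul_of_nonneg_left (pow_le_pow_left₀ (hmax0 s) (hmax s) _) (by linarith)
      _ = Real.exp (Real.log C₂ + B.natDegree * L) := by
          rw [Real.exp_add, Real.exp_log (by linarith), Real.exp_nat_mul]
      _ ≤ Real.exp (C₃ * (1 + L)) := by
          apply Real.exp_le_exp.2
          rw [hC₃]
          nlinarith [mul_nonneg hl2 hL, mul_nonneg hl3 hL]
  have hbd : Bd K (C₃ * (1 + L)) (aeval t B : ℂ) :=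
    { mem := hBK
      den := by
        refine ⟨r', hr', ?_, ?_⟩
        · calc (r' : ℝ) = Real.exp (Real.log r') := (Real.exp_log (by linarith)).symm
            _ ≤ Real.exp (C₃ * (1 + L)) := by
                apply Real.exp_le_exp.2
                rw [hC₃]
                nlinarith [mul_nonneg hl2 hL, mul_nonneg hl3 hL, mul_nonneg hn2 hL]
        · rw [hr'e]
          exact RInt_val B h₃ le_rfl t hrt
      house := by
        intro σ
        obtain ⟨s, hs⟩ := exists_aut K σ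
        rw [← hs ⟨_, hBK⟩]
        exact hup s }
  have hlow := hbd.lower (le_refl _) (mul_nonneg hC₃0 hL1) hB0
    ((s : ℂ →+* ℂ).comp (algebraMap K ℂ))
  have hlow2 : Real.exp (-(2 * (Module.finrank ℚ K : ℝ) * (C₃ * (1 + L)))) ≤
      ‖s (aeval t B : ℂ)‖ := hlow
  have hmain : ‖s (aeval t B : ℂ)‖ * max 1 ‖s x‖ ≤
      Real.exp (Real.log C₁ + rdeg A B * L) := by
    calc ‖s (aeval t B : ℂ)‖ * max 1 ‖s x‖ ≤ C₁ * max 1 ‖s t‖ ^ rdeg A B := (h₁ s t x heq).1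
      _ ≤ C₁ * Real.exp L ^ rdeg A B :=
          mul_le_mul_of_nonneg_left (pow_le_pow_left₀ (hmax0 s) (hmax s) _) (by linarith)
      _ = Real.exp (Real.log C₁ + rdeg A B * L) := by
          rw [Real.exp_add, Real.exp_log (by linarith), Real.exp_nat_mul]
  have hxs : ‖s x‖ ≤ max 1 ‖s x‖ := le_max_right _ _
  have hprod : Real.exp (-(2 * (Module.finrank ℚ K : ℝ) * (C₃ * (1 + L)))) * ‖s x‖ ≤
      Real.exp (Real.log C₁ + rdeg A B * L) :=
    (mul_le_mul hlow2 hxs (norm_nonneg _) (norm_nonneg _)).trans hmain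
  calc ‖s x‖ = Real.exp (2 * (Module.finrank ℚ K : ℝ) * (C₃ * (1 + L))) *
        (Real.exp (-(2 * (Module.finrank ℚ K : ℝ) * (C₃ * (1 + L)))) * ‖s x‖) := by
        rw [← mul_assoc, ← Real.exp_add, add_neg_cancel, Real.exp_zero, one_mul]
    _ ≤ Real.exp (2 * (Module.finrank ℚ K : ℝ) * (C₃ * (1 + L))) *
        Real.exp (Real.log C₁ + rdeg A B * L) :=
        mul_le_mul_of_nonneg_left hprod (Real.exp_pos _).le
    _ = Real.exp (2 * (Module.finrank ℚ K : ℝ) * (C₃ * (1 + L)) +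
        (Real.log C₁ + rdeg A B * L)) := (Real.exp_add _ _).symm
    _ ≤ Real.exp ((Real.log C₁ + rdeg A B + 2 * C₃ + 1) * Module.finrank ℚ K * (1 + L)) := by
        apply Real.exp_le_exp.2
        have ha : Real.log C₁ + rdeg A B * L ≤ (Real.log C₁ + rdeg A B) * (1 + L) := by
          nlinarith [mul_nonneg hl1 hL]
        have hb : (Real.log C₁ + rdeg A B) * (1 + L) ≤
            (Real.log C₁ + rdeg A B) * (1 + L) * Module.finrank ℚ K :=
          le_mul_of_one_le_right (mul_nonneg (by linarith) hL1) hD1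
        have hc : 0 ≤ (1 + L) * (Module.finrank ℚ K : ℝ) := mul_nonneg hL1 (by linarith)
        calc 2 * (Module.finrank ℚ K : ℝ) * (C₃ * (1 + L)) + (Real.log C₁ + rdeg A B * L)
            ≤ 2 * (Module.finrank ℚ K : ℝ) * (C₃ * (1 + L)) +
              (Real.log C₁ + rdeg A B) * (1 + L) * Module.finrank ℚ K := by linarith
          _ ≤ 2 * (Module.finrank ℚ K : ℝ) * (C₃ * (1 + L)) +
              (Real.log C₁ + rdeg A B) * (1 + L) * Module.finrank ℚ K +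
              (1 + L) * (Module.finrank ℚ K : ℝ) := by linarith
          _ = (Real.log C₁ + rdeg A B + 2 * C₃ + 1) * Module.finrank ℚ K * (1 + L) := by ring

/-- a function bounded by `(C D) ^ C` -/
def Pb (f : ℝ → ℝ) : Prop := ∃ C : ℕ, 1 ≤ C ∧ ∀ D : ℝ, 1 ≤ D → 0 ≤ f D ∧ f D ≤ (C * D) ^ C

private theorem Pb_le {a b : ℕ} (ha : 1 ≤ a) (hab : a ≤ b) {D : ℝ} (hD : 1 ≤ D) :
    ((a : ℝ) * D) ^ a ≤ (b * D) ^ b := by
  have h1 : (1 : ℝ) ≤ a := by exact_mod_cast ha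
  have h2 : (a : ℝ) ≤ b := by exact_mod_cast hab
  have h3 : (a : ℝ) * D ≤ b * D := mul_le_mul_of_nonneg_right h2 (by linarith)
  have h4 : 1 ≤ (b : ℝ) * D := by nlinarith
  calc ((a : ℝ) * D) ^ a ≤ (b * D) ^ a := pow_le_pow_left₀ (by positivity) h3 _
    _ ≤ (b * D) ^ b := pow_le_pow_right₀ h4 hab

theorem Pb_const (c : ℝ) (hc : 0 ≤ c) : Pb fun _ => c := by
  obtain ⟨n, hn⟩ := exists_nat_ge c
  refine ⟨n + 1, by omega, fun D hD => ⟨hc, ?_⟩⟩
  have h1 : (1 : ℝ) ≤ (n + 1 : ℕ) := by push_cast; linarith [Nat.cast_nonneg (α := ℝ) n]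
  have h2 : ((n + 1 : ℕ) : ℝ) ≤ (n + 1 : ℕ) * D := le_mul_of_one_le_right (by linarith) hD
  calc c ≤ (n + 1 : ℕ) := by push_cast; linarith
    _ ≤ (n + 1 : ℕ) * D := h2
    _ = ((n + 1 : ℕ) * D) ^ 1 := (pow_one _).symm
    _ ≤ ((n + 1 : ℕ) * D) ^ (n + 1) := pow_le_pow_right₀ (h1.trans h2) (by omega)

theorem Pb_id : Pb fun D => D :=
  ⟨1, le_rfl, fun D hD => ⟨by linarith, by simp⟩⟩

theorem Pb.add {f g : ℝ → ℝ} (hf : Pb f) (hg : Pb g) : Pb fun D => f D + g D := by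
  obtain ⟨a, ha, hf⟩ := hf
  obtain ⟨b, hb, hg⟩ := hg
  refine ⟨a + b + 1, by omega, fun D hD => ?_⟩
  obtain ⟨f0, f1⟩ := hf D hD
  obtain ⟨g0, g1⟩ := hg D hD
  refine ⟨add_nonneg f0 g0, ?_⟩
  obtain ⟨q, hq⟩ : ∃ q : ℝ, q = ((a + b + 1 : ℕ) : ℝ) * D := ⟨_, rfl⟩
  have ha1 : (1 : ℝ) ≤ a := by exact_mod_cast ha
  have hb1 : (1 : ℝ) ≤ b := by exact_mod_cast hb
  have haq : (a : ℝ) * D ≤ q := by
    rw [hq]
    apply mul_le_mul_of_nonneg_right _ (by linarith)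
    push_cast; linarith
  have hbq : (b : ℝ) * D ≤ q := by
    rw [hq]
    apply mul_le_mul_of_nonneg_right _ (by linarith)
    push_cast; linarith
  have hq2 : 2 ≤ q := by
    rw [hq]
    have : (3 : ℝ) ≤ ((a + b + 1 : ℕ) : ℝ) := by push_cast; linarith
    nlinarith
  rw [← hq]
  calc f D + g D ≤ (a * D) ^ a + (b * D) ^ b := add_le_add f1 g1
    _ ≤ q ^ a + q ^ b := add_le_add (pow_le_pow_left₀ (by positivity) haq _)
        (pow_le_pow_left₀ (by positivity) hbq _)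
    _ ≤ q ^ (a + b) + q ^ (a + b) := add_le_add (pow_le_pow_right₀ (by linarith) (by omega))
        (pow_le_pow_right₀ (by linarith) (by omega))
    _ = 2 * q ^ (a + b) := by ring
    _ ≤ q * q ^ (a + b) := mul_le_mul_of_nonneg_right hq2 (by positivity)
    _ = q ^ (a + b + 1) := by ring

theorem Pb.mul {f g : ℝ → ℝ} (hf : Pb f) (hg : Pb g) : Pb fun D => f D * g D := by
  obtain ⟨a, ha, hf⟩ := hf
  obtain ⟨b, hb, hg⟩ := hg
  refine ⟨a + b, by omega, fun D hD => ?_⟩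
  obtain ⟨f0, f1⟩ := hf D hD
  obtain ⟨g0, g1⟩ := hg D hD
  refine ⟨mul_nonneg f0 g0, ?_⟩
  have haq : (a : ℝ) * D ≤ ((a + b : ℕ) : ℝ) * D := by
    apply mul_le_mul_of_nonneg_right _ (by linarith)
    push_cast; linarith [Nat.cast_nonneg (α := ℝ) b]
  have hbq : (b : ℝ) * D ≤ ((a + b : ℕ) : ℝ) * D := by
    apply mul_le_mul_of_nonneg_right _ (by linarith)
    push_cast; linarith [Nat.cast_nonneg (α := ℝ) a]
  have ha0 : (0 : ℝ) ≤ a * D := by positivity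
  have hb0 : (0 : ℝ) ≤ b * D := by positivity
  calc f D * g D ≤ (a * D) ^ a * (b * D) ^ b := mul_le_mul f1 g1 g0 (by positivity)
    _ ≤ (((a + b : ℕ) : ℝ) * D) ^ a * (((a + b : ℕ) : ℝ) * D) ^ b :=
        mul_le_mul (pow_le_pow_left₀ ha0 haq _) (pow_le_pow_left₀ hb0 hbq _) (by positivity)
          (by positivity)
    _ = _ := (pow_add _ _ _).symm

theorem Pb.pow {f : ℝ → ℝ} (hf : Pb f) (k : ℕ) : Pb fun D => f D ^ k := by
  induction k with
  | zero => simpa using Pb_const 1 zero_le_one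
  | succ k ih =>
    have := ih.mul hf
    simpa only [pow_succ] using this

theorem Pb.nonneg {f : ℝ → ℝ} (hf : Pb f) {D : ℝ} (hD : 1 ≤ D) : 0 ≤ f D := by
  obtain ⟨C, -, h⟩ := hf
  exact (h D hD).1

end Pool.Agent.LGO.P
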