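import Mathlib
import Pool.Agent.LGO.U.RInt
import Pool.Agent.LGO.U.RComp
import Pool.Agent.LGO.Mul.Int
import Pool.Agent.LGO.Gal.Basic
import Pool.Agent.Hhelper14.ZP.Rat

/-!
# LGO/P: integrality on rational curves (MP_d83ecd_ag, Theorem P, note 2995)

`P_int`: for a rational curve `x i = A i (t) / B i (t)` and a relation `r` on the coordinates such that at every
point at infinity `c` of the curve and for every valuation ring `W` of `ℂ` there are `r i j` for which the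
value of `x j` at `c` lies in `W` and the value of `x i` at `c` does not, the points with isogenous `x i`, `x j` for all `r i j`
have coordinates with a bounded denominator.  This condition is not needed for the `W` in a set `S` if all coordinates of
the points considered lie in these `W`.
-/

namespace Pool.Agent.LGO.P

open Polynomial Pool.Agent.Hhelper14.ZP Pool.Agent.Hhelper14.ZPL Pool.Agent.LGO Pool.Agent.LGO.U

/-- the value of `A / B` at `c` lies in `W` -/
def ValMem (W : ValuationSubring ℂ) (a b : Qb) : Prop := ∃ z ∈ W, (a : ℂ) = z * (b : ℂ)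

theorem P_isog_mem (W : ValuationSubring ℂ) {x y : ℂ} (h : ∃ N, 0 < N ∧ IsogDeg N x y) :
    x ∈ W ↔ y ∈ W := by
  obtain ⟨τ, g, hg, rfl, rfl⟩ := heckeRel_iff.2 h
  exact (gact_mem_iff W hg).symm

theorem P_nat_mem (W : ValuationSubring ℂ) (m : ℕ) : (m : ℂ) ∈ W := natCast_mem W m

/-- a denominator for the values of a polynomial -/
theorem P_den (P : Polynomial Qb) : ∃ m : ℕ, 0 < m ∧ ∀ (W : ValuationSubring ℂ) (t : ℂ), t ∈ W →
    (m : ℂ) * (aeval t P : ℂ) ∈ W := by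
  obtain ⟨m, hm, h⟩ := RInt_den P
  refine ⟨m, hm, fun W t ht => ?_⟩
  rw [aeval_eq_sum_range, Finset.mul_sum]
  refine sum_mem fun i _ => ?_
  have e : (m : ℂ) * P.coeff i • t ^ i = ((m : ℂ) * algebraMap Qb ℂ (P.coeff i)) * t ^ i := by
    rw [Algebra.smul_def]
    ring
  rw [e]
  exact mul_mem (Int_mem W (h i)) (pow_mem ht i)

/-- a denominator for a constant -/
theorem P_den_one (a : Qb) : ∃ m : ℕ, 0 < m ∧ ∀ W : ValuationSubring ℂ, (m : ℂ) * (a : ℂ) ∈ W := by
  obtain ⟨m, hm, h⟩ := RInt_one (algebraMap Qb ℂ a) (RInt_alg a)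
  exact ⟨m, hm, fun W => Int_mem W h⟩

/-- the main local statement -/
theorem P_core {A B : Polynomial Qb} (h : IsCoprime A B) (c : Qb) (hAc : A.eval c ≠ 0) :
    ∃ R : ℕ, 0 < R ∧ ∀ (W : ValuationSubring ℂ) (t x γ : ℂ), t ∈ W → x ∈ W →
      (aeval t A : ℂ) = x * aeval t B → ((B.eval c : Qb) : ℂ) = γ * ((A.eval c : Qb) : ℂ) →
      W.valuation (x * γ) < 1 → t ≠ c → (R : ℂ) * (t - c)⁻¹ ∈ W := by
  obtain ⟨U, V, hUV⟩ := h
  obtain ⟨G, hG⟩ : (X - C c) ∣ A * C (B.eval c) - B * C (A.eval c) := by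
    rw [dvd_iff_isRoot, IsRoot.def, eval_sub, eval_mul, eval_mul, eval_C, eval_C]
    ring
  obtain ⟨m1, hm1, h1⟩ := P_den G
  obtain ⟨m2, hm2, h2⟩ := P_den U
  obtain ⟨m3, hm3, h3⟩ := P_den V
  obtain ⟨m4, hm4, h4⟩ := P_den_one (A.eval c)⁻¹
  refine ⟨m1 * (m2 * m3) * m4, by positivity, fun W t x γ ht hx hxt hγ hv htc => ?_⟩
  have htc' : t - (c : ℂ) ≠ 0 := sub_ne_zero.2 htc
  have hAc' : ((A.eval c : Qb) : ℂ) ≠ 0 := by
    intro h0
    exact hAc (by exact_mod_cast h0)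
  have e1 : (aeval t U : ℂ) * aeval t A + aeval t V * aeval t B = 1 := by
    have := congrArg (aeval t : Polynomial Qb → ℂ) hUV
    simpa only [map_add, map_mul, map_one] using this
  have e2 : (aeval t A : ℂ) * ((B.eval c : Qb) : ℂ) - aeval t B * ((A.eval c : Qb) : ℂ) =
      (t - c) * aeval t G := by
    have h0 := congrArg (aeval t : Polynomial Qb → ℂ) hG
    simp only [map_sub, map_mul, aeval_C, aeval_X] at h0
    exact h0
  have hv1 : W.valuation (x * γ - 1) = 1 := by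
    rw [← neg_sub, Valuation.map_neg]
    exact Valuation.map_one_sub_of_lt _ hv
  have hne : x * γ - 1 ≠ 0 := by
    intro h0
    rw [h0, map_zero] at hv1
    exact zero_ne_one hv1
  have hinv : (x * γ - 1)⁻¹ ∈ W := by
    rw [← W.valuation_le_one_iff, map_inv₀, hv1, inv_one]
  have e3 : (t - c)⁻¹ = (aeval t G : ℂ) * (aeval t U * x + aeval t V) *
      (((A.eval c : Qb) : ℂ))⁻¹ * (x * γ - 1)⁻¹ := by
    rw [hxt, hγ] at e2
    rw [hxt] at e1
    have e4 : (t - c) * ((aeval t G : ℂ) * (aeval t U * x + aeval t V) *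
      (((A.eval c : Qb) : ℂ))⁻¹ * (x * γ - 1)⁻¹) = 1 := by
      have e5 : (t - c) * ((aeval t G : ℂ) * (aeval t U * x + aeval t V) *
        (((A.eval c : Qb) : ℂ))⁻¹ * (x * γ - 1)⁻¹) = ((t - c) * aeval t G) *
        (aeval t U * x + aeval t V) * (((A.eval c : Qb) : ℂ))⁻¹ * (x * γ - 1)⁻¹ := by ring
      rw [e5, ← e2]
      have e6 : (x * (aeval t B : ℂ) * (γ * ((A.eval c : Qb) : ℂ)) - aeval t B * ((A.eval c : Qb) : ℂ)) *
          (aeval t U * x + aeval t V) * (((A.eval c : Qb) : ℂ))⁻¹ * (x * γ - 1)⁻¹ =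
          (aeval t U * (x * aeval t B) + aeval t V * aeval t B) *
          (((A.eval c : Qb) : ℂ) * (((A.eval c : Qb) : ℂ))⁻¹) * ((x * γ - 1) * (x * γ - 1)⁻¹) := by
        ring
      rw [e6, e1, mul_inv_cancel₀ hAc', mul_inv_cancel₀ hne]
      ring
    exact inv_eq_of_mul_eq_one_right e4
  have hA4 : (m4 : ℂ) * (((A.eval c : Qb) : ℂ))⁻¹ ∈ W := by
    have := h4 W
    push_cast at this
    exact this
  have e7 : ((m1 * (m2 * m3) * m4 : ℕ) : ℂ) * (t - c)⁻¹ = ((m1 : ℂ) * aeval t G) *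
      ((m3 : ℂ) * ((m2 : ℂ) * aeval t U) * x + (m2 : ℂ) * ((m3 : ℂ) * aeval t V)) *
      ((m4 : ℂ) * (((A.eval c : Qb) : ℂ))⁻¹) * (x * γ - 1)⁻¹ := by
    rw [e3]
    push_cast
    ring
  rw [e7]
  exact mul_mem (mul_mem (mul_mem (h1 W t ht) (add_mem (mul_mem (mul_mem (P_nat_mem W _)
    (h2 W t ht)) hx) (mul_mem (P_nat_mem W _) (h3 W t ht)))) hA4) hinv

/-- the value at `c` lies in `W`, the value at `t` does not -/
theorem P_alpha {A B : Polynomial Qb} (h : IsCoprime A B) (c : Qb) :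
    ∃ R : ℕ, 0 < R ∧ ∀ (W : ValuationSubring ℂ) (t x : ℂ), t ∈ W → x ∉ W →
      (aeval t A : ℂ) = x * aeval t B → ValMem W (A.eval c) (B.eval c) → t ≠ c →
      (R : ℂ) * (t - c)⁻¹ ∈ W := by
  by_cases hB : B.eval c = 0
  · refine ⟨1, one_pos, fun W t x _ _ _ hz _ => ?_⟩
    exfalso
    obtain ⟨z, -, hz⟩ := hz
    rw [hB] at hz
    have hA : A.eval c = 0 := by
      have h1 : ((A.eval c : Qb) : ℂ) = 0 := by rw [hz]; simp
      exact_mod_cast h1
    obtain ⟨U, V, hUV⟩ := h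
    have h2 := congrArg (eval c) hUV
    rw [eval_add, eval_mul, eval_mul, hA, hB, mul_zero, mul_zero, add_zero, eval_one] at h2
    exact zero_ne_one h2
  · obtain ⟨R, hR, h1⟩ := P_core h.symm c hB
    refine ⟨R, hR, fun W t x ht hx hxt hz htc => ?_⟩
    obtain ⟨z, hz, hzz⟩ := hz
    have hx0 : x ≠ 0 := by
      rintro rfl
      exact hx (zero_mem W)
    have hvx : 1 < W.valuation x := by
      rw [← not_le, W.valuation_le_one_iff]
      exact hx
    have hvi : W.valuation x⁻¹ < 1 := by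
      rw [map_inv₀]
      exact inv_lt_one_of_one_lt₀ hvx
    refine h1 W t x⁻¹ z ht ?_ ?_ hzz ?_ htc
    · exact (W.valuation_le_one_iff _).1 hvi.le
    · rw [hxt, ← mul_assoc, inv_mul_cancel₀ hx0, one_mul]
    · rw [map_mul]
      exact mul_lt_one_of_lt_of_le hvi ((W.valuation_le_one_iff _).2 hz)

/-- the value at `t` lies in `W`, the value at `c` does not -/
theorem P_beta {A B : Polynomial Qb} (h : IsCoprime A B) (c : Qb) :
    ∃ R : ℕ, 0 < R ∧ ∀ (W : ValuationSubring ℂ) (t x : ℂ), t ∈ W → x ∈ W →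
      (aeval t A : ℂ) = x * aeval t B → ¬ ValMem W (A.eval c) (B.eval c) → t ≠ c →
      (R : ℂ) * (t - c)⁻¹ ∈ W := by
  by_cases hA : A.eval c = 0
  · refine ⟨1, one_pos, fun W t x _ _ _ hz _ => ?_⟩
    exfalso
    refine hz ⟨0, zero_mem W, ?_⟩
    rw [hA]
    simp
  · obtain ⟨R, hR, h1⟩ := P_core h c hA
    have hA' : ((A.eval c : Qb) : ℂ) ≠ 0 := by
      intro h0
      exact hA (by exact_mod_cast h0)
    refine ⟨R, hR, fun W t x ht hx hxt hz htc => ?_⟩
    refine h1 W t x (((B.eval c : Qb) : ℂ) / ((A.eval c : Qb) : ℂ)) ht hx hxt ?_ ?_ htc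
    · rw [div_mul_cancel₀ _ hA']
    · rw [map_mul, mul_comm]
      refine mul_lt_one_of_lt_of_le ?_ ((W.valuation_le_one_iff _).2 hx)
      by_contra hcon
      rw [not_lt] at hcon
      apply hz
      have hB' : ((B.eval c : Qb) : ℂ) ≠ 0 := by
        intro h0
        rw [h0, zero_div, map_zero] at hcon
        exact absurd hcon (not_le.2 zero_lt_one)
      refine ⟨((A.eval c : Qb) : ℂ) / ((B.eval c : Qb) : ℂ), ?_, ?_⟩
      · rw [← W.valuation_le_one_iff, ← inv_div, map_inv₀]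
        exact inv_le_one_of_one_le₀ hcon
      · rw [div_mul_cancel₀ _ hB']

/-- from the linear factors to the polynomial -/
theorem P_prod (P : Polynomial Qb) (hP : P ≠ 0) (f : Qb → ℕ) (hf : ∀ c, 0 < f c) :
    ∃ R : ℕ, 0 < R ∧ ∀ (W : ValuationSubring ℂ) (t : ℂ),
      (∀ c, P.eval c = 0 → (f c : ℂ) * (t - c)⁻¹ ∈ W) → (R : ℂ) * (aeval t P : ℂ)⁻¹ ∈ W := by
  have key : ∀ s : Multiset Qb, ∃ R : ℕ, 0 < R ∧ ∀ (W : ValuationSubring ℂ) (t : ℂ),
      (∀ c ∈ s, (f c : ℂ) * (t - c)⁻¹ ∈ W) →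
        (R : ℂ) * (aeval t (s.map fun a => X - C a).prod : ℂ)⁻¹ ∈ W := by
    intro s
    induction s using Multiset.induction with
    | empty =>
      refine ⟨1, one_pos, fun W t _ => ?_⟩
      simp
    | cons a s ih =>
      obtain ⟨R, hR, h1⟩ := ih
      refine ⟨f a * R, Nat.mul_pos (hf a) hR, fun W t ht => ?_⟩
      rw [Multiset.map_cons, Multiset.prod_cons, map_mul, mul_inv]
      have e : ((f a * R : ℕ) : ℂ) * ((aeval t (X - C a) : ℂ)⁻¹ *
          (aeval t (s.map fun a => X - C a).prod : ℂ)⁻¹) = ((f a : ℂ) * (t - a)⁻¹) *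
          ((R : ℂ) * (aeval t (s.map fun a => X - C a).prod : ℂ)⁻¹) := by
        rw [map_sub, aeval_X, aeval_C]
        push_cast
        have : (algebraMap Qb ℂ a) = (a : ℂ) := rfl
        rw [this]
        ring
      rw [e]
      exact mul_mem (ht a (Multiset.mem_cons_self a s)) (h1 W t fun c hc =>
        ht c (Multiset.mem_cons_of_mem hc))
  obtain ⟨R, hR, h1⟩ := key P.roots
  obtain ⟨m, hm, h2⟩ := P_den_one (P.leadingCoeff)⁻¹
  refine ⟨m * R, Nat.mul_pos hm hR, fun W t ht => ?_⟩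
  have h3 : P = C P.leadingCoeff * (P.roots.map fun a => X - C a).prod :=
    (IsAlgClosed.splits P).eq_prod_roots
  have e : ((m * R : ℕ) : ℂ) * (aeval t P : ℂ)⁻¹ = ((m : ℂ) * (((P.leadingCoeff)⁻¹ : Qb) : ℂ)) *
      ((R : ℂ) * (aeval t (P.roots.map fun a => X - C a).prod : ℂ)⁻¹) := by
    conv_lhs => rw [h3]
    rw [map_mul, aeval_C, mul_inv]
    push_cast
    have : (algebraMap Qb ℂ P.leadingCoeff) = (P.leadingCoeff : ℂ) := rfl
    rw [this]
    ring
  rw [e]
  refine mul_mem (h2 W) (h1 W t fun c hc => ht c ?_)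
  exact (mem_roots hP).1 hc

/-- the parameter lies in `W` -/
theorem P_fin {n : ℕ} (A B : Fin n → Polynomial Qb) (hc : ∀ i, IsCoprime (A i) (B i))
    (hB : ∀ i, B i ≠ 0) (r : Fin n → Fin n → Prop) (S : Set (ValuationSubring ℂ))
    (hcusp : ∀ (W : ValuationSubring ℂ) (c : Qb), W ∉ S → (∃ k, (B k).eval c = 0) → ∃ i j, r i j ∧
      ¬ ValMem W ((A i).eval c) ((B i).eval c) ∧ ValMem W ((A j).eval c) ((B j).eval c)) :
    ∃ m : ℕ, 0 < m ∧ ∀ (W : ValuationSubring ℂ) (t : ℂ) (x : Fin n → ℂ), W ∉ S → t ∈ W →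
      (∀ k, (aeval t (B k) : ℂ) ≠ 0 ∧ (aeval t (A k) : ℂ) = x k * aeval t (B k)) →
      (∀ i j, r i j → (x i ∈ W ↔ x j ∈ W)) → ∀ k, (m : ℂ) * x k ∈ W := by
  classical
  choose a ha ha' using fun (i : Fin n) (c : Qb) => P_alpha (hc i) c
  choose b hb hb' using fun (i : Fin n) (c : Qb) => P_beta (hc i) c
  have hf : ∀ c : Qb, 0 < ∏ i, (a i c * b i c) := fun c =>
    Finset.prod_pos fun i _ => Nat.mul_pos (ha i c) (hb i c)
  choose R hR hR' using fun k => P_prod (B k) (hB k) (fun c => ∏ i, (a i c * b i c)) hf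
  choose d hd hd' using fun k => P_den (A k)
  refine ⟨∏ k, (R k * d k), Finset.prod_pos fun k _ => Nat.mul_pos (hR k) (hd k), ?_⟩
  intro W t x hWS ht hx hr k
  -- a multiple
  have hmul : ∀ (g : Fin n → ℕ) (i : Fin n) (z : ℂ), (g i : ℂ) * z ∈ W →
      ((∏ j, g j : ℕ) : ℂ) * z ∈ W := by
    intro g i z hz
    rw [← Finset.mul_prod_erase _ _ (Finset.mem_univ i)]
    have e : ((g i * ∏ j ∈ Finset.univ.erase i, g j : ℕ) : ℂ) * z =
        ((∏ j ∈ Finset.univ.erase i, g j : ℕ) : ℂ) * ((g i : ℂ) * z) := by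
      push_cast
      ring
    rw [e]
    exact mul_mem (P_nat_mem W _) hz
  have hne : ∀ (k : Fin n) (c : Qb), (B k).eval c = 0 → t ≠ c := by
    rintro k c h0 rfl
    apply (hx k).1
    have h1 : (aeval ((c : Qb) : ℂ) (B k) : ℂ) = (((B k).eval c : Qb) : ℂ) := by
      have := aeval_algebraMap_apply ℂ c (B k)
      rw [← coe_aeval_eq_eval]
      exact this
    rw [h1, h0]
    rfl
  have hlin : ∀ c : Qb, (∃ k, (B k).eval c = 0) →
      ((∏ i, (a i c * b i c) : ℕ) : ℂ) * (t - c)⁻¹ ∈ W := by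
    intro c hk
    have htc : t ≠ c := by
      obtain ⟨k, hk⟩ := hk
      exact hne k c hk
    obtain ⟨i, j, hij, hi, hj⟩ := hcusp W c hWS hk
    by_cases hxj : x j ∈ W
    · have hxi : x i ∈ W := (hr i j hij).2 hxj
      refine hmul (fun i => a i c * b i c) i _ ?_
      have e : ((a i c * b i c : ℕ) : ℂ) * (t - c)⁻¹ = (a i c : ℂ) * ((b i c : ℂ) * (t - c)⁻¹) := by
        push_cast
        ring
      rw [e]
      exact mul_mem (P_nat_mem W _) (hb' i c W t (x i) ht hxi (hx i).2 hi htc)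
    · refine hmul (fun i => a i c * b i c) j _ ?_
      have e : ((a j c * b j c : ℕ) : ℂ) * (t - c)⁻¹ = (b j c : ℂ) * ((a j c : ℂ) * (t - c)⁻¹) := by
        push_cast
        ring
      rw [e]
      exact mul_mem (P_nat_mem W _) (ha' j c W t (x j) ht hxj (hx j).2 hj htc)
  refine hmul (fun k => R k * d k) k _ ?_
  have h1 := hR' k W t fun c h0 => hlin c ⟨k, h0⟩
  have h2 := hd' k W t ht
  have e : ((R k * d k : ℕ) : ℂ) * x k = ((R k : ℂ) * (aeval t (B k) : ℂ)⁻¹) *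
      ((d k : ℂ) * aeval t (A k)) := by
    rw [(hx k).2]
    have := (hx k).1
    push_cast
    field_simp
  rw [e]
  exact mul_mem h1 h2

/-- the reflected polynomial -/
theorem P_refl_eval {P : Polynomial Qb} {n : ℕ} (hP : P.natDegree ≤ n) {z : Qb} (hz : z ≠ 0) :
    (reflect n P).eval z = z ^ n * P.eval z⁻¹ := by
  let _ : Invertible z⁻¹ := invertibleOfNonzero (inv_ne_zero hz)
  have h1 := eval₂_reflect_mul_pow (RingHom.id Qb) z⁻¹ n P hP
  have h2 : (⅟(z⁻¹) : Qb) = z := by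
    rw [invOf_eq_inv, inv_inv]
  rw [h2, eval₂_id, eval₂_id] at h1
  rw [← h1, inv_pow, mul_comm, mul_assoc, inv_mul_cancel₀ (pow_ne_zero n hz), mul_one]

theorem P_refl_aeval {P : Polynomial Qb} {n : ℕ} (hP : P.natDegree ≤ n) {z : ℂ} (hz : z ≠ 0) :
    (aeval z (reflect n P) : ℂ) = z ^ n * aeval z⁻¹ P := by
  let _ : Invertible z⁻¹ := invertibleOfNonzero (inv_ne_zero hz)
  have h1 := eval₂_reflect_mul_pow (algebraMap Qb ℂ) z⁻¹ n P hP
  have h2 : (⅟(z⁻¹) : ℂ) = z := by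
    rw [invOf_eq_inv, inv_inv]
  rw [h2, ← aeval_def, ← aeval_def] at h1
  rw [← h1, inv_pow, mul_comm, mul_assoc, inv_mul_cancel₀ (pow_ne_zero n hz), mul_one]

theorem P_refl_zero (P : Polynomial Qb) (n : ℕ) : (reflect n P).eval 0 = P.coeff n := by
  rw [← coeff_zero_eq_eval_zero, coeff_reflect, revAt_le (Nat.zero_le _), Nat.sub_zero]

theorem P_coeff_ne {A B : Polynomial Qb} (h : IsCoprime A B) :
    A.coeff (rdeg A B) ≠ 0 ∨ B.coeff (rdeg A B) ≠ 0 := by
  have hA : A.natDegree = rdeg A B → A ≠ 0 → A.coeff (rdeg A B) ≠ 0 := by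
    intro h1 h2
    rw [← h1]
    exact leadingCoeff_ne_zero.2 h2
  have hB : B.natDegree = rdeg A B → B ≠ 0 → B.coeff (rdeg A B) ≠ 0 := by
    intro h1 h2
    rw [← h1]
    exact leadingCoeff_ne_zero.2 h2
  by_cases hA0 : A = 0
  · have hu : IsUnit B := by
      rw [hA0] at h
      exact isCoprime_zero_left.1 h
    refine Or.inr (hB ?_ hu.ne_zero)
    rw [rdeg, hA0, natDegree_zero, natDegree_eq_zero_of_isUnit hu, max_self]
  · by_cases hB0 : B = 0
    · have hu : IsUnit A := by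
        rw [hB0] at h
        exact isCoprime_zero_right.1 h
      refine Or.inl (hA ?_ hu.ne_zero)
      rw [rdeg, hB0, natDegree_zero, natDegree_eq_zero_of_isUnit hu, max_self]
    · rcases le_total A.natDegree B.natDegree with h1 | h1
      · exact Or.inr (hB (by rw [rdeg, max_eq_right h1]) hB0)
      · exact Or.inl (hA (by rw [rdeg, max_eq_left h1]) hA0)

theorem P_refl_coprime {A B : Polynomial Qb} (h : IsCoprime A B) :
    IsCoprime (reflect (rdeg A B) A) (reflect (rdeg A B) B) := by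
  have hA : A.natDegree ≤ rdeg A B := le_max_left _ _
  have hB : B.natDegree ≤ rdeg A B := le_max_right _ _
  refine (isCoprime_iff_aeval_ne_zero_of_isAlgClosed (K := Qb) (k := Qb) _ _).2 fun z => ?_
  simp only [coe_aeval_eq_eval]
  by_cases hz : z = 0
  · subst hz
    rw [P_refl_zero, P_refl_zero]
    exact P_coeff_ne h
  · rw [P_refl_eval hA hz, P_refl_eval hB hz]
    have h1 := (isCoprime_iff_aeval_ne_zero_of_isAlgClosed (K := Qb) (k := Qb) A B).1 h z⁻¹
    simp only [coe_aeval_eq_eval] at h1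
    rcases h1 with h1 | h1
    · exact Or.inl (mul_ne_zero (pow_ne_zero _ hz) h1)
    · exact Or.inr (mul_ne_zero (pow_ne_zero _ hz) h1)

theorem P_valMem_mul (W : ValuationSubring ℂ) {a b u : Qb} (hu : u ≠ 0) :
    ValMem W (u * a) (u * b) ↔ ValMem W a b := by
  have hu' : ((u : Qb) : ℂ) ≠ 0 := by
    intro h0
    exact hu (by exact_mod_cast h0)
  constructor
  · rintro ⟨z, hz, h⟩
    refine ⟨z, hz, mul_left_cancel₀ hu' ?_⟩
    push_cast at h
    rw [h]
    ring
  · rintro ⟨z, hz, h⟩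
    refine ⟨z, hz, ?_⟩
    push_cast
    rw [h]
    ring

/-- **integrality** -/
theorem P_int {n : ℕ} (A B : Fin n → Polynomial Qb) (hc : ∀ i, IsCoprime (A i) (B i))
    (hB : ∀ i, B i ≠ 0) (r : Fin n → Fin n → Prop) (S : Set (ValuationSubring ℂ))
    (hcusp : ∀ (W : ValuationSubring ℂ) (c : Qb), W ∉ S → (∃ k, (B k).eval c = 0) → ∃ i j, r i j ∧
      ¬ ValMem W ((A i).eval c) ((B i).eval c) ∧ ValMem W ((A j).eval c) ((B j).eval c))
    (hinf : ∀ W : ValuationSubring ℂ, W ∉ S → (∃ k, (B k).natDegree < (A k).natDegree) →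
      ∃ i j, r i j ∧
      ¬ ValMem W ((A i).coeff (rdeg (A i) (B i))) ((B i).coeff (rdeg (A i) (B i))) ∧
      ValMem W ((A j).coeff (rdeg (A j) (B j))) ((B j).coeff (rdeg (A j) (B j)))) :
    ∃ m : ℕ, 0 < m ∧ ∀ (t : ℂ) (x : Fin n → ℂ),
      (∀ k, (aeval t (B k) : ℂ) ≠ 0 ∧ (aeval t (A k) : ℂ) = x k * aeval t (B k)) →
      (∀ W ∈ S, ∀ k, x k ∈ W) →
      (∀ i j, r i j → ∃ N, 0 < N ∧ IsogDeg N (x i) (x j)) → ∀ k, IsIntegral ℤ ((m : ℂ) * x k) := by
  obtain ⟨m₁, hm₁, h₁⟩ := P_fin A B hc hB r S hcusp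
  obtain ⟨m₂, hm₂, h₂⟩ := P_fin (fun k => reflect (rdeg (A k) (B k)) (A k))
    (fun k => reflect (rdeg (A k) (B k)) (B k)) (fun k => P_refl_coprime (hc k))
    (fun k => by
      intro h0
      exact hB k (reflect_eq_zero_iff.1 h0)) r S (by
      intro W c hWS hk
      by_cases hc0 : c = 0
      · subst hc0
        simp only [P_refl_zero] at hk ⊢
        refine hinf W hWS ?_
        obtain ⟨k, hk⟩ := hk
        refine ⟨k, ?_⟩
        by_contra hcon
        rw [not_lt] at hcon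
        have h1 : rdeg (A k) (B k) = (B k).natDegree := max_eq_right hcon
        rw [h1] at hk
        exact hB k (leadingCoeff_eq_zero.1 hk)
      · have hA : ∀ k, (A k).natDegree ≤ rdeg (A k) (B k) := fun k => le_max_left _ _
        have hB' : ∀ k, (B k).natDegree ≤ rdeg (A k) (B k) := fun k => le_max_right _ _
        obtain ⟨k, hk⟩ := hk
        rw [P_refl_eval (hB' k) hc0] at hk
        obtain ⟨i, j, hij, hi, hj⟩ := hcusp W c⁻¹ hWS ⟨k, by
          rcases mul_eq_zero.1 hk with h | h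
          · exact absurd h (pow_ne_zero _ hc0)
          · exact h⟩
        refine ⟨i, j, hij, ?_, ?_⟩
        · rw [P_refl_eval (hA i) hc0, P_refl_eval (hB' i) hc0,
            P_valMem_mul W (pow_ne_zero _ hc0)]
          exact hi
        · rw [P_refl_eval (hA j) hc0, P_refl_eval (hB' j) hc0,
            P_valMem_mul W (pow_ne_zero _ hc0)]
          exact hj)
  refine ⟨m₁ * m₂, Nat.mul_pos hm₁ hm₂, fun t x hx hxS hr k => ?_⟩
  refine isIntegral_of_forall_valuation fun W => ?_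
  by_cases hWS : W ∈ S
  · exact mul_mem (P_nat_mem W _) (hxS W hWS k)
  have hr' : ∀ i j, r i j → (x i ∈ W ↔ x j ∈ W) := fun i j hij => P_isog_mem W (hr i j hij)
  by_cases ht : t ∈ W
  · have h3 := h₁ W t x hWS ht hx hr' k
    have e : ((m₁ * m₂ : ℕ) : ℂ) * x k = (m₂ : ℂ) * ((m₁ : ℂ) * x k) := by
      push_cast
      ring
    rw [e]
    exact mul_mem (P_nat_mem W _) h3
  · have ht0 : t ≠ 0 := by
      rintro rfl
      exact ht (zero_mem W)
    have hti : t⁻¹ ∈ W := (W.mem_or_inv_mem t).resolve_left ht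
    have h3 := h₂ W t⁻¹ x hWS hti (fun k => by
      have hA : (A k).natDegree ≤ rdeg (A k) (B k) := le_max_left _ _
      have hB' : (B k).natDegree ≤ rdeg (A k) (B k) := le_max_right _ _
      simp only [P_refl_aeval hA (inv_ne_zero ht0), P_refl_aeval hB' (inv_ne_zero ht0), inv_inv]
      refine ⟨mul_ne_zero (pow_ne_zero _ (inv_ne_zero ht0)) (hx k).1, ?_⟩
      rw [(hx k).2]
      ring) hr' k
    have e : ((m₁ * m₂ : ℕ) : ℂ) * x k = (m₁ : ℂ) * ((m₂ : ℂ) * x k) := by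
      push_cast
      ring
    rw [e]
    exact mul_mem (P_nat_mem W _) h3

end Pool.Agent.LGO.P
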