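import Mathlib
import Pool.Agent.LGO.P.Int
import Pool.Agent.LGO.P.Ht
import Pool.Agent.LGO.U.RPair
import Pool.Agent.LGO.U.RNum
import Pool.Agent.LGO.U.RFld
import Pool.Agent.LGO.H.Use

/-!
# LGO/P: Large Galois orbits on rational curves, all pairs and all `n` (MP_d83ecd_ag, note 2995)

* `P_inf`: the engine `pair_bound_m` gives the bound for all coordinates and all isogenous pairs, if one
  coordinate has a pole at `t = ∞` and an isogenous one has none.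
* `P_main`: the theorem for sets of points of a rational curve.
-/

namespace Pool.Agent.LGO.P

open Polynomial Pool.Agent.Hhelper14.ZP Pool.Agent.Hhelper14.ZPL Pool.Agent.LGO Pool.Agent.LGO.U

/-- the conclusion: bounds for the conjugates of all coordinates and for all minimal isogeny degrees -/
def PConcl {n : ℕ} (C : ℕ) (x : Fin n → ℂ) : Prop :=
  ∀ (K : IntermediateField ℚ ℂ) [FiniteDimensional ℚ K], (∀ k, x k ∈ K) →
    (∀ k, ∀ s : ℂ ≃+* ℂ, ‖s (x k)‖ ≤ Real.exp ((C * Module.finrank ℚ K : ℝ) ^ C)) ∧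
    ∀ i j, NCM (x i) → (∃ N, 0 < N ∧ IsogDeg N (x i) (x j)) →
      (mdeg (x i) (x j) : ℝ) ≤ (C * Module.finrank ℚ K : ℝ) ^ C

private theorem P_pow_mono {C C' D : ℕ} (hC : C ≤ C') (hD : 1 ≤ D) :
    ((C : ℝ) * (D : ℝ)) ^ C ≤ ((C' : ℝ) * (D : ℝ)) ^ C' := by
  have h : (C * D) ^ C ≤ (C' * D) ^ C' := by
    rcases Nat.eq_zero_or_pos C' with h0 | h0
    · subst h0
      have : C = 0 := by omega
      subst this
      exact le_rfl
    · calc (C * D) ^ C ≤ (C' * D) ^ C := Nat.pow_le_pow_left (Nat.mul_le_mul_right _ hC) _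
        _ ≤ (C' * D) ^ C' := Nat.pow_le_pow_right (Nat.mul_pos h0 hD) hC
  exact_mod_cast h

theorem PConcl.mono {n : ℕ} {C C' : ℕ} {x : Fin n → ℂ} (h : PConcl C x) (hC : C ≤ C') :
    PConcl C' x := by
  intro K hK hxK
  have hD : 1 ≤ Module.finrank ℚ K := Module.finrank_pos
  have hp := P_pow_mono hC hD
  obtain ⟨h1, h2⟩ := h K hxK
  exact ⟨fun k s => (h1 k s).trans (Real.exp_le_exp.2 hp), fun i j hi hij => (h2 i j hi hij).trans hp⟩

private theorem P_conj {y : ℂ} (hy : IsAlgebraic ℚ y) :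
    ∃ B : ℝ, ∀ s : ℂ ≃+* ℂ, ‖s y‖ ≤ B := by
  have hint : IsIntegral ℚ y := hy.isIntegral
  have hne : minpoly ℚ y ≠ 0 := minpoly.ne_zero hint
  have hfin : ((minpoly ℚ y).rootSet ℂ).Finite := Polynomial.rootSet_finite _ _
  obtain ⟨B, hB⟩ := (hfin.image norm).bddAbove
  refine ⟨B, fun s => hB ⟨s y, ?_, rfl⟩⟩
  rw [Polynomial.mem_rootSet]
  refine ⟨hne, ?_⟩
  have h1 : Polynomial.aeval ((s : ℂ →+* ℂ).toRatAlgHom y) (minpoly ℚ y) =
      (s : ℂ →+* ℂ).toRatAlgHom (Polynomial.aeval y (minpoly ℚ y)) :=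
    Polynomial.aeval_algHom_apply _ _ _
  rw [minpoly.aeval, map_zero] at h1
  exact h1

private theorem P_exc_one {n : ℕ} (x : Fin n → ℂ) : ∃ C : ℕ, PConcl C x := by
  classical
  by_cases halg : ∀ a, IsAlgebraic ℚ (x a)
  · choose B hB using fun a => P_conj (halg a)
    let C : ℕ := (∑ a, ⌈B a⌉₊) + (∑ a, ∑ b, mdeg (x a) (x b)) + 1
    refine ⟨C, ?_⟩
    intro K hK hxK
    have hD : 1 ≤ Module.finrank ℚ K := Module.finrank_pos
    have hC1 : 1 ≤ C := by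
      simp only [C]
      omega
    have hCp : (C : ℝ) ≤ ((C : ℝ) * (Module.finrank ℚ K : ℝ)) ^ C := by
      have h : C ≤ (C * Module.finrank ℚ K) ^ C := by
        have h0 : 0 < C * Module.finrank ℚ K := Nat.mul_pos hC1 hD
        calc C ≤ C * Module.finrank ℚ K := Nat.le_mul_of_pos_right _ hD
          _ = (C * Module.finrank ℚ K) ^ 1 := (pow_one _).symm
          _ ≤ (C * Module.finrank ℚ K) ^ C := Nat.pow_le_pow_right h0 hC1
      exact_mod_cast h
    constructor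
    · intro a s
      have h1 : ⌈B a⌉₊ ≤ ∑ a, ⌈B a⌉₊ :=
        Finset.single_le_sum (f := fun a => ⌈B a⌉₊) (fun _ _ => Nat.zero_le _) (Finset.mem_univ a)
      have h2 : ⌈B a⌉₊ ≤ C := by
        simp only [C]
        omega
      have h3 : B a ≤ (C : ℝ) := (Nat.le_ceil (B a)).trans (by exact_mod_cast h2)
      calc ‖s (x a)‖ ≤ B a := hB a s
        _ ≤ (C : ℝ) := h3
        _ ≤ ((C : ℝ) * (Module.finrank ℚ K : ℝ)) ^ C := hCp
        _ ≤ Real.exp (((C : ℝ) * (Module.finrank ℚ K : ℝ)) ^ C) := by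
          have := Real.add_one_le_exp (((C : ℝ) * (Module.finrank ℚ K : ℝ)) ^ C)
          linarith
    · intro a b _ _
      refine le_trans ?_ hCp
      have h1 : mdeg (x a) (x b) ≤ ∑ a, ∑ b, mdeg (x a) (x b) :=
        (Finset.single_le_sum (f := fun b => mdeg (x a) (x b))
          (fun _ _ => Nat.zero_le _) (Finset.mem_univ b)).trans
        (Finset.single_le_sum (f := fun a => ∑ b, mdeg (x a) (x b))
          (fun _ _ => Nat.zero_le _) (Finset.mem_univ a))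
      have h2 : mdeg (x a) (x b) ≤ C := by
        simp only [C]
        omega
      exact_mod_cast h2
  · refine ⟨0, fun K hK hxK => ?_⟩
    exfalso
    apply halg
    intro a
    have h1 : IsAlgebraic ℚ (⟨x a, hxK a⟩ : K) := Algebra.IsAlgebraic.isAlgebraic _
    exact h1.algebraMap

theorem P_exc {n : ℕ} {E : Set (Fin n → ℂ)} (hE : E.Finite) : ∃ C : ℕ, ∀ x ∈ E, PConcl C x := by
  choose c hc using fun x => P_exc_one (n := n) x
  obtain ⟨C, hC⟩ := (hE.image c).bddAbove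
  exact ⟨C, fun x hx => (hc x).mono (hC ⟨x, hx, rfl⟩)⟩

/-- `Bd` from a fixed denominator and a bound for the conjugates -/
private theorem P_bd {K : IntermediateField ℚ ℂ} [FiniteDimensional ℚ K] {m : ℕ} (hm : 0 < m)
    {x : ℂ} {M : ℝ} (hx : x ∈ K) (hi : IsIntegral ℤ ((m : ℂ) * x)) (hmM : (m : ℝ) ≤ M)
    (h : ∀ s : ℂ ≃+* ℂ, ‖s x‖ ≤ Real.exp M) : Bd K M x where
  mem := hx
  den := by
    refine ⟨m, hm, ?_, hi⟩
    have := Real.add_one_le_exp M
    linarith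
  house := by
    intro σ
    obtain ⟨s, hs⟩ := exists_aut K σ
    rw [← hs ⟨x, hx⟩]
    exact h s

private theorem P_one_le_log {N : ℝ} (hN : 3 ≤ N) : 1 ≤ Real.log N := by
  rw [Real.le_log_iff_exp_le (by linarith)]
  have := Real.exp_one_lt_d9
  linarith

/-- the first numerical step -/
private theorem P_num (C₁ C₃ m : ℕ) (hC₁ : 1 ≤ C₁) : ∃ C : ℕ, 1 ≤ C ∧ ∀ D N : ℝ, 1 ≤ D → 3 ≤ N →
    N ≤ 3 + ((m : ℝ) + 2 + D + (C₁ * (D * Real.log N)) ^ C₁) ^ C₃ → N ≤ (C * D) ^ C := by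
  obtain ⟨C, hC, h⟩ := num_N ((m : ℝ) + 3 + C₁) (by positivity) ((C₁ + 1) * C₃ + 1)
  refine ⟨C, hC, fun D N hD hN hle => h D N hD hN ?_⟩
  have hl := P_one_le_log hN
  obtain ⟨y, hy⟩ : ∃ y : ℝ, y = D * Real.log N := ⟨_, rfl⟩
  have hy1 : 1 ≤ y := by rw [hy]; nlinarith
  have hDy : D ≤ y := by rw [hy]; nlinarith
  obtain ⟨q, hq⟩ : ∃ q : ℝ, q = ((m : ℝ) + 3 + C₁) * y := ⟨_, rfl⟩
  have hC1 : (1 : ℝ) ≤ C₁ := by exact_mod_cast hC₁
  have hm0 : (0 : ℝ) ≤ m := Nat.cast_nonneg m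
  have hq4 : 4 ≤ q := by rw [hq]; nlinarith
  have hgoal : ((m : ℝ) + 3 + C₁) * D * Real.log N = q := by rw [hq, hy]; ring
  rw [hgoal]
  rw [← hy] at hle
  have h1 : (m : ℝ) + 2 + D ≤ q := by rw [hq]; nlinarith
  have h2 : (C₁ : ℝ) * y ≤ q := by rw [hq]; nlinarith
  have h3 : ((C₁ : ℝ) * y) ^ C₁ ≤ q ^ C₁ := pow_le_pow_left₀ (by positivity) h2 _
  have h4 : q ≤ q ^ C₁ := by
    calc q = q ^ 1 := (pow_one q).symm
      _ ≤ q ^ C₁ := pow_le_pow_right₀ (by linarith) hC₁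
  have h5 : (m : ℝ) + 2 + D + (C₁ * y) ^ C₁ ≤ q ^ (C₁ + 1) := by
    rw [pow_succ]
    have : 0 ≤ q ^ C₁ := by positivity
    nlinarith
  have h6 : ((m : ℝ) + 2 + D + (C₁ * y) ^ C₁) ^ C₃ ≤ (q ^ (C₁ + 1)) ^ C₃ :=
    pow_le_pow_left₀ (by positivity) h5 _
  rw [← pow_mul] at h6
  have h7 : 1 ≤ q ^ ((C₁ + 1) * C₃) := one_le_pow₀ (by linarith)
  calc N ≤ 3 + ((m : ℝ) + 2 + D + (C₁ * y) ^ C₁) ^ C₃ := hle
    _ ≤ 3 * q ^ ((C₁ + 1) * C₃) + q ^ ((C₁ + 1) * C₃) := by linarith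
    _ = 4 * q ^ ((C₁ + 1) * C₃) := by ring
    _ ≤ q * q ^ ((C₁ + 1) * C₃) := mul_le_mul_of_nonneg_right hq4 (by positivity)
    _ = q ^ ((C₁ + 1) * C₃ + 1) := by ring

theorem P_inf {n : ℕ} (A B : Fin n → Polynomial Qb) (hc : ∀ i, IsCoprime (A i) (B i)) (a b : Fin n)
    (ha : (B a).natDegree < (A a).natDegree) (hb : (A b).natDegree ≤ (B b).natDegree)
    (hb1 : 1 ≤ rdeg (A b) (B b)) (m : ℕ) (hm : 0 < m) :
    ∃ (C : ℕ) (T : Set ℂ), T.Finite ∧ ∀ (t : ℂ) (x : Fin n → ℂ), t ∉ T →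
      (∀ k, (aeval t (B k) : ℂ) ≠ 0 ∧ (aeval t (A k) : ℂ) = x k * aeval t (B k)) →
      (∀ k, IsIntegral ℤ ((m : ℂ) * x k)) → NCM (x b) → (∃ N, 0 < N ∧ IsogDeg N (x b) (x a)) →
      PConcl C x := by
  classical
  obtain ⟨C₁, hC₁, hpair⟩ := pair_bound_m (hc a) (hc b) ha (Or.inl hb) m hm
  obtain ⟨C₃, hisog⟩ := isog_use
  obtain ⟨C₄, hC₄, hnum⟩ := P_num C₁ C₃ m hC₁
  obtain ⟨r, hr, hrt⟩ := int_t_m (A a) (B a) ha m hm
  obtain ⟨Cf, hCf, hfld⟩ := fld_t (A a) (B a) ha (Finset.univ.image B)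
  obtain ⟨C₅, hC₅, hhouse⟩ := P_house (hc a) ha
  choose c hc1 hht using fun k => P_ht (hc k) r hr
  -- the functions
  obtain ⟨H₁, hH₁⟩ : ∃ H₁ : ℝ → ℝ, H₁ = fun D => ((C₁ : ℝ) * (D * ((C₄ : ℝ) * D) ^ C₄)) ^ C₁ := ⟨_, rfl⟩
  have hH₁b : Pb H₁ := by
    rw [hH₁]
    exact ((Pb_const C₁ (Nat.cast_nonneg _)).mul (Pb_id.mul
      (((Pb_const C₄ (Nat.cast_nonneg _)).mul Pb_id).pow C₄))).pow C₁
  have hcs : 0 ≤ ∑ k, c k := Finset.sum_nonneg fun k _ => zero_le_one.trans (hc1 k)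
  obtain ⟨H₂, hH₂⟩ : ∃ H₂ : ℝ → ℝ, H₂ = fun D => (∑ k, c k) * (Cf * D) * (1 + (C₅ + H₁ D)) :=
    ⟨_, rfl⟩
  have hH₂b : Pb H₂ := by
    rw [hH₂]
    exact ((Pb_const _ hcs).mul ((Pb_const Cf (Nat.cast_nonneg _)).mul Pb_id)).mul
      ((Pb_const 1 zero_le_one).add ((Pb_const C₅ (by linarith)).add hH₁b))
  have hM₂b : Pb fun D => (m + 2 + D + H₂ D) ^ C₃ := by
    exact (((((Pb_const m (Nat.cast_nonneg _)).add (Pb_const 2 zero_le_two)).add Pb_id).add
      hH₂b).pow C₃)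
  obtain ⟨C, hC, hCb⟩ := hH₂b.add hM₂b
  -- the exceptional parameters
  obtain ⟨P, hP⟩ : ∃ P : Polynomial Qb, P = Polynomial.C ((B b).coeff (rdeg (A b) (B b))) * A b -
    Polynomial.C ((A b).coeff (rdeg (A b) (B b))) * B b := ⟨_, rfl⟩
  have hrb : rdeg (A b) (B b) = (B b).natDegree := max_eq_right hb
  have hBb0 : B b ≠ 0 := by
    intro h0
    rw [hrb, h0, natDegree_zero] at hb1
    omega
  have hβ : (B b).coeff (rdeg (A b) (B b)) ≠ 0 := by
    rw [hrb]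
    exact leadingCoeff_ne_zero.2 hBb0
  have hP0 : P ≠ 0 := by
    intro h0
    rw [hP, sub_eq_zero] at h0
    have hdvd : B b ∣ Polynomial.C ((B b).coeff (rdeg (A b) (B b))) * A b :=
      ⟨Polynomial.C ((A b).coeff (rdeg (A b) (B b))), by rw [h0]; ring⟩
    have hdvd2 : B b ∣ Polynomial.C ((B b).coeff (rdeg (A b) (B b))) :=
      (hc b).symm.dvd_of_dvd_mul_right hdvd
    have hu : IsUnit (Polynomial.C ((B b).coeff (rdeg (A b) (B b))) : Polynomial Qb) :=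
      isUnit_C.2 (isUnit_iff_ne_zero.2 hβ)
    have hu2 : IsUnit (B b) := isUnit_of_dvd_unit hdvd2 hu
    rw [hrb, natDegree_eq_zero_of_isUnit hu2] at hb1
    omega
  refine ⟨C, {t : ℂ | (aeval t P : ℂ) = 0}, ?_, ?_⟩
  · refine (rootSet_finite P ℂ).subset fun t ht => ?_
    rw [mem_rootSet]
    exact ⟨hP0, ht⟩
  intro t x ht hx hint hncm hiso K _ hxK
  have hcoef : ((A b).coeff (rdeg (A b) (B b)) : ℂ) ≠
      x b * ((B b).coeff (rdeg (A b) (B b)) : ℂ) := by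
    intro h0
    apply ht
    show (aeval t P : ℂ) = 0
    rw [hP, map_sub, map_mul, map_mul, aeval_C, aeval_C, (hx b).2]
    have e1 : algebraMap Qb ℂ ((A b).coeff (rdeg (A b) (B b))) =
        ((A b).coeff (rdeg (A b) (B b)) : ℂ) := rfl
    have e2 : algebraMap Qb ℂ ((B b).coeff (rdeg (A b) (B b))) =
        ((B b).coeff (rdeg (A b) (B b)) : ℂ) := rfl
    rw [e1, e2, h0]
    ring
  obtain ⟨D, hDdef⟩ : ∃ D : ℝ, D = (Module.finrank ℚ K : ℝ) := ⟨_, rfl⟩
  have hD : 1 ≤ D := by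
    rw [hDdef]
    exact_mod_cast Module.finrank_pos (R := ℚ) (M := K)
  obtain ⟨N, hNdef⟩ : ∃ N : ℝ, N = 3 + (mdeg (x b) (x a) : ℝ) := ⟨_, rfl⟩
  have hN3 : 3 ≤ N := by rw [hNdef]; linarith [Nat.cast_nonneg (α := ℝ) (mdeg (x b) (x a))]
  obtain ⟨hu, hv⟩ := hpair K (x a) (x b) t (hxK a) (hxK b) (hint a) (hint b) hncm hiso (hx a).2
    (hx a).1 (hx b).2 (hx b).1 hcoef N hN3 (by rw [hNdef]; linarith)
  rw [← hDdef] at hu hv
  have hncma : NCM (x a) := by
    obtain ⟨N', hN', h'⟩ := hiso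
    exact NCM.of_isog hN' h' hncm
  have hm0 : (0 : ℝ) ≤ m := Nat.cast_nonneg m
  have hlog := P_one_le_log hN3
  -- the isogeny degree
  have hNle : N ≤ (C₄ * D) ^ C₄ := by
    refine hnum D N hD hN3 ?_
    have hH0 : 0 ≤ ((C₁ : ℝ) * (D * Real.log N)) ^ C₁ := by positivity
    obtain ⟨M, hM⟩ : ∃ M : ℝ, M = (m : ℝ) + 2 + D + (C₁ * (D * Real.log N)) ^ C₁ := ⟨_, rfl⟩
    rw [← hM]
    have hb' : ∀ y, (∀ s : ℂ ≃+* ℂ, ‖s y‖ ≤ Real.exp ((C₁ * (D * Real.log N)) ^ C₁)) →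
        ∀ s : ℂ ≃+* ℂ, ‖s y‖ ≤ Real.exp M := fun y hy s =>
      (hy s).trans (Real.exp_le_exp.2 (by rw [hM]; linarith))
    have h1 := hisog K M (x b) (x a) (by rw [hM]; linarith) (by rw [← hDdef, hM]; linarith)
      (P_bd hm (hxK b) (hint b) (by rw [hM]; linarith) (hb' _ hv))
      (P_bd hm (hxK a) (hint a) (by rw [hM]; linarith) (hb' _ hu)) hncm hncma hiso
    rw [hNdef]
    linarith
  have hlogN : Real.log N ≤ (C₄ * D) ^ C₄ := by
    have := Real.log_le_sub_one_of_pos (show 0 < N by linarith)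
    linarith
  -- the coordinate `a`
  have hu' : ∀ s : ℂ ≃+* ℂ, ‖s (x a)‖ ≤ Real.exp (H₁ D) := by
    intro s
    refine (hu s).trans (Real.exp_le_exp.2 ?_)
    rw [hH₁]
    have : 0 ≤ Real.log N := by linarith
    show ((C₁ : ℝ) * (D * Real.log N)) ^ C₁ ≤ (C₁ * (D * (C₄ * D) ^ C₄)) ^ C₁
    gcongr
  have hH₁0 : 0 ≤ H₁ D := hH₁b.nonneg hD
  have hH₂0 : 0 ≤ H₂ D := hH₂b.nonneg hD
  -- the parameter
  have ht' : ∀ s : ℂ ≃+* ℂ, ‖s t‖ ≤ Real.exp (C₅ + H₁ D) := by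
    intro s
    refine (hhouse s t (x a) (hx a).2).trans ?_
    rw [Real.exp_add]
    have h1 : C₅ ≤ Real.exp C₅ := by
      have := Real.add_one_le_exp C₅
      linarith
    have h2 : max 1 ‖s (x a)‖ ≤ Real.exp (H₁ D) := max_le (Real.one_le_exp hH₁0) (hu' s)
    exact mul_le_mul h1 h2 (by positivity) (Real.exp_pos _).le
  obtain ⟨K', hKK', hfin, hfr, htK, hcoefK⟩ := hfld K (x a) t (hxK a) (hx a).2
  have := hfin
  have hfr' : (Module.finrank ℚ K' : ℝ) ≤ Cf * D := by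
    rw [hDdef]
    exact_mod_cast hfr
  have hall : ∀ k, ∀ s : ℂ ≃+* ℂ, ‖s (x k)‖ ≤ Real.exp (H₂ D) := by
    intro k s
    have h1 := hht k K' (x k) t (C₅ + H₁ D) (hrt (x a) t (hint a) (hx a).2) (hx k).2 (hx k).1
      (mem_aeval htK (hcoefK (B k) (Finset.mem_image_of_mem _ (Finset.mem_univ k))))
      (by linarith) ht' s
    refine h1.trans (Real.exp_le_exp.2 ?_)
    rw [hH₂]
    show c k * Module.finrank ℚ K' * (1 + (C₅ + H₁ D)) ≤ (∑ k, c k) * (Cf * D) * (1 + (C₅ + H₁ D))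
    have h2 : c k ≤ ∑ k, c k := Finset.single_le_sum (f := c)
      (fun j _ => zero_le_one.trans (hc1 j)) (Finset.mem_univ k)
    have h3 : 0 ≤ c k := zero_le_one.trans (hc1 k)
    gcongr
  have hfinal := (hCb D hD).2
  have hM₂0 : 0 ≤ (m + 2 + D + H₂ D) ^ C₃ := by positivity
  rw [← hDdef]
  constructor
  · intro k s
    refine (hall k s).trans (Real.exp_le_exp.2 ?_)
    have : H₂ D + (m + 2 + D + H₂ D) ^ C₃ ≤ (C * D) ^ C := hfinal
    linarith
  · intro i j hi hij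
    have hj : NCM (x j) := by
      obtain ⟨N', hN', h'⟩ := hij
      exact NCM.of_isog hN' h' hi
    have hb' : ∀ k, ∀ s : ℂ ≃+* ℂ, ‖s (x k)‖ ≤ Real.exp (m + 2 + D + H₂ D) := fun k s =>
      (hall k s).trans (Real.exp_le_exp.2 (by linarith))
    have h1 := hisog K (m + 2 + D + H₂ D) (x i) (x j) (by linarith) (by rw [← hDdef]; linarith)
      (P_bd hm (hxK i) (hint i) (by linarith) (hb' i))
      (P_bd hm (hxK j) (hint j) (by linarith) (hb' j)) hi hj hij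
    have : H₂ D + (m + 2 + D + H₂ D) ^ C₃ ≤ (C * D) ^ C := hfinal
    linarith

/-- the theorem for a pair with a pole of one coordinate only -/
theorem P_pole {n : ℕ} (A B : Fin n → Polynomial Qb) (hc : ∀ i, IsCoprime (A i) (B i)) (a b : Fin n)
    (hb1 : 1 ≤ rdeg (A b) (B b))
    (hab : (∃ c : Qb, (B a).eval c = 0 ∧ (B b).eval c ≠ 0 ∧ 1 ≤ rdeg (A a) (B a)) ∨
      ((B a).natDegree < (A a).natDegree ∧ (A b).natDegree ≤ (B b).natDegree)) (m : ℕ) (hm : 0 < m) :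
    ∃ (C : ℕ) (T : Set ℂ), T.Finite ∧ ∀ (t : ℂ) (x : Fin n → ℂ), t ∉ T →
      (∀ k, (aeval t (B k) : ℂ) ≠ 0 ∧ (aeval t (A k) : ℂ) = x k * aeval t (B k)) →
      (∀ k, IsIntegral ℤ ((m : ℂ) * x k)) → NCM (x b) → (∃ N, 0 < N ∧ IsogDeg N (x b) (x a)) →
      PConcl C x := by
  rcases hab with ⟨c, hca, hcb, ha1⟩ | ⟨ha, hb⟩
  · choose A' B' h1 h2 h3 h4 h5 using fun k => P_mob c (hc k)
    obtain ⟨C, T, hT, h⟩ := P_inf A' B' h1 a b (h4 a ha1 hca) (h5 b hcb) (by rw [h2]; exact hb1) m hm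
    refine ⟨C, (fun z : ℂ => c + z⁻¹) '' T, hT.image _, fun t x ht hx hint hncm hiso => ?_⟩
    have htc : t ≠ c := by
      rintro rfl
      apply (hx a).1
      have e1 : (aeval ((c : Qb) : ℂ) (B a) : ℂ) = (((B a).eval c : Qb) : ℂ) := by
        have := aeval_algebraMap_apply ℂ c (B a)
        rw [← coe_aeval_eq_eval]
        exact this
      rw [e1, hca]
      rfl
    have hz : (t - (c : ℂ))⁻¹ ≠ 0 := inv_ne_zero (sub_ne_zero.2 htc)
    refine h (t - (c : ℂ))⁻¹ x ?_ (fun k => ?_) hint hncm hiso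
    · intro hmem
      apply ht
      refine ⟨(t - (c : ℂ))⁻¹, hmem, ?_⟩
      show (c : ℂ) + ((t - (c : ℂ))⁻¹)⁻¹ = t
      rw [inv_inv]
      ring
    · obtain ⟨e1, e2⟩ := h3 k t htc
      rw [e1, e2]
      refine ⟨mul_ne_zero (pow_ne_zero _ hz) (hx k).1, ?_⟩
      rw [(hx k).2]
      ring
  · exact P_inf A B hc a b ha hb hb1 m hm

/-- **the theorem for rational curves** -/
theorem P_main {n : ℕ} {V : Set (Fin n → ℂ)} (A B : Fin n → Polynomial Qb)
    (hc : ∀ i, IsCoprime (A i) (B i)) (hB : ∀ i, B i ≠ 0) (r : Fin n → Fin n → Prop)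
    (hnc : ∀ i j, r i j → 1 ≤ rdeg (A j) (B j)) (S : Set (ValuationSubring ℂ)) (hS : ⊤ ∉ S)
    (hcusp : ∀ (W : ValuationSubring ℂ) (c : Qb), W ∉ S → (∃ k, (B k).eval c = 0) → ∃ i j, r i j ∧
      ¬ ValMem W ((A i).eval c) ((B i).eval c) ∧ ValMem W ((A j).eval c) ((B j).eval c))
    (hinf : ∀ W : ValuationSubring ℂ, W ∉ S → (∃ k, (B k).natDegree < (A k).natDegree) →
      ∃ i j, r i j ∧
      ¬ ValMem W ((A i).coeff (rdeg (A i) (B i))) ((B i).coeff (rdeg (A i) (B i))) ∧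
      ValMem W ((A j).coeff (rdeg (A j) (B j))) ((B j).coeff (rdeg (A j) (B j))))
    {E : Set (Fin n → ℂ)} (hE : E.Finite)
    (hpar : ∀ x ∈ V, x ∉ E → ∃ t : ℂ, ∀ k, (aeval t (B k) : ℂ) ≠ 0 ∧
      x k * aeval t (B k) = aeval t (A k)) :
    ∃ C : ℕ, ∀ x ∈ V, (∀ W ∈ S, ∀ k, x k ∈ W) →
      (∀ i j, r i j → NCM (x j) ∧ ∃ N, 0 < N ∧ IsogDeg N (x i) (x j)) → PConcl C x := by
  classical
  obtain ⟨m, hm, hint⟩ := P_int A B hc hB r S hcusp hinf
  -- the pair
  have hpair : (∃ a b, r a b ∧ ((∃ c : Qb, (B a).eval c = 0 ∧ (B b).eval c ≠ 0 ∧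
      1 ≤ rdeg (A a) (B a)) ∨
      ((B a).natDegree < (A a).natDegree ∧ (A b).natDegree ≤ (B b).natDegree))) ∨
      ∀ k, (A k).natDegree = 0 ∧ (B k).natDegree = 0 := by
    by_cases h1 : ∃ (c : Qb) (k : Fin n), (B k).eval c = 0
    · obtain ⟨c, hk⟩ := h1
      obtain ⟨i, j, hij, hi, hj⟩ := hcusp ⊤ c hS hk
      left
      refine ⟨i, j, hij, Or.inl ⟨c, ?_, ?_, ?_⟩⟩
      · by_contra h0
        apply hi
        have h0' : (((B i).eval c : Qb) : ℂ) ≠ 0 := by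
          intro h00
          exact h0 (by exact_mod_cast h00)
        exact ⟨(((A i).eval c : Qb) : ℂ) / (((B i).eval c : Qb) : ℂ), ValuationSubring.mem_top _,
          (div_mul_cancel₀ _ h0').symm⟩
      · intro h0
        obtain ⟨z, -, hz⟩ := hj
        rw [h0] at hz
        have hA : (A j).eval c = 0 := by
          have h1 : (((A j).eval c : Qb) : ℂ) = 0 := by rw [hz]; simp
          exact_mod_cast h1
        obtain ⟨U, V, hUV⟩ := hc j
        have h2 := congrArg (eval c) hUV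
        rw [eval_add, eval_mul, eval_mul, hA, h0, mul_zero, mul_zero, add_zero, eval_one] at h2
        exact zero_ne_one h2
      · by_contra h0
        have hBi : (B i).natDegree = 0 := by
          have : (B i).natDegree ≤ rdeg (A i) (B i) := le_max_right _ _
          omega
        apply hi
        have hBc : (B i).eval c ≠ 0 := by
          rw [eq_C_of_natDegree_eq_zero hBi, eval_C]
          intro h00
          apply hB i
          rw [eq_C_of_natDegree_eq_zero hBi, h00, C_0]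
        have h0' : (((B i).eval c : Qb) : ℂ) ≠ 0 := by
          intro h00
          exact hBc (by exact_mod_cast h00)
        exact ⟨(((A i).eval c : Qb) : ℂ) / (((B i).eval c : Qb) : ℂ), ValuationSubring.mem_top _,
          (div_mul_cancel₀ _ h0').symm⟩
    · push Not at h1
      have hB0 : ∀ k, (B k).natDegree = 0 := by
        intro k
        by_contra h0
        obtain ⟨c, hc⟩ := IsAlgClosed.exists_root (B k) (by
          rw [degree_eq_natDegree (hB k)]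
          exact_mod_cast h0)
        exact h1 c k hc
      by_cases h2 : ∃ k, (B k).natDegree < (A k).natDegree
      · obtain ⟨i, j, hij, hi, hj⟩ := hinf ⊤ hS h2
        left
        refine ⟨i, j, hij, Or.inr ⟨?_, ?_⟩⟩
        · by_contra h0
          rw [not_lt] at h0
          have h3 : rdeg (A i) (B i) = (B i).natDegree := max_eq_right h0
          apply hi
          rw [h3]
          have h4 : (((B i).coeff (B i).natDegree : Qb) : ℂ) ≠ 0 := by
            intro h00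
            exact leadingCoeff_ne_zero.2 (hB i) (by exact_mod_cast h00)
          exact ⟨(((A i).coeff (B i).natDegree : Qb) : ℂ) / (((B i).coeff (B i).natDegree : Qb) : ℂ),
            ValuationSubring.mem_top _, (div_mul_cancel₀ _ h4).symm⟩
        · by_contra h0
          rw [not_le] at h0
          have h3 : rdeg (A j) (B j) = (A j).natDegree := max_eq_left h0.le
          obtain ⟨z, -, hz⟩ := hj
          rw [h3, coeff_eq_zero_of_natDegree_lt h0] at hz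
          have h5 : (A j).coeff (A j).natDegree = 0 := by
            have h6 : (((A j).coeff (A j).natDegree : Qb) : ℂ) = 0 := by rw [hz]; simp
            exact_mod_cast h6
          have h7 : A j = 0 := leadingCoeff_eq_zero.1 h5
          rw [h7, natDegree_zero] at h0
          omega
      · right
        push Not at h2
        intro k
        have := h2 k
        have h3 := hB0 k
        omega
  rcases hpair with ⟨a, b, hab, hpair⟩ | hconst
  · obtain ⟨C, T, hT, h⟩ := P_pole A B hc a b (hnc a b hab) hpair m hm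
    -- the exceptional points
    have hfin : {x : Fin n → ℂ | ∃ t ∈ T, ∀ k, (aeval t (B k) : ℂ) ≠ 0 ∧
        x k * aeval t (B k) = aeval t (A k)}.Finite := by
      refine (hT.image fun t : ℂ => fun k => (aeval t (A k) : ℂ) / aeval t (B k)).subset ?_
      rintro x ⟨t, ht, hx⟩
      refine ⟨t, ht, ?_⟩
      funext k
      show (aeval t (A k) : ℂ) / aeval t (B k) = x k
      rw [← (hx k).2, mul_div_cancel_right₀ _ (hx k).1]
    obtain ⟨C', hC'⟩ := P_exc (hE.union hfin)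
    refine ⟨max C C', fun x hxV hxS hx => ?_⟩
    by_cases hxE : x ∈ E ∪ {x : Fin n → ℂ | ∃ t ∈ T, ∀ k, (aeval t (B k) : ℂ) ≠ 0 ∧
        x k * aeval t (B k) = aeval t (A k)}
    · exact (hC' x hxE).mono (le_max_right _ _)
    · obtain ⟨t, ht⟩ := hpar x hxV fun h => hxE (Or.inl h)
      have htT : t ∉ T := fun h => hxE (Or.inr ⟨t, h, ht⟩)
      have hx' : ∀ k, (aeval t (B k) : ℂ) ≠ 0 ∧ (aeval t (A k) : ℂ) = x k * aeval t (B k) :=
        fun k => ⟨(ht k).1, (ht k).2.symm⟩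
      refine (h t x htT hx' (hint t x hx' hxS fun i j hij => (hx i j hij).2) (hx a b hab).1 ?_).mono
        (le_max_left _ _)
      obtain ⟨N, hN, hiso⟩ := (hx a b hab).2
      exact ⟨N, hN, hiso.symm⟩
  · -- all coordinates are constant
    obtain ⟨C', hC'⟩ := P_exc (hE.union (Set.finite_singleton
      fun k => (((A k).coeff 0 : Qb) : ℂ) / (((B k).coeff 0 : Qb) : ℂ)))
    refine ⟨C', fun x hxV _ _ => hC' x ?_⟩
    by_cases hxE : x ∈ E
    · exact Or.inl hxE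
    · right
      obtain ⟨t, ht⟩ := hpar x hxV hxE
      show x = _
      funext k
      obtain ⟨h1, h2⟩ := ht k
      have hA : (aeval t (A k) : ℂ) = ((A k).coeff 0 : ℂ) := by
        conv_lhs => rw [eq_C_of_natDegree_eq_zero (hconst k).1, aeval_C]
        rfl
      have hB' : (aeval t (B k) : ℂ) = ((B k).coeff 0 : ℂ) := by
        conv_lhs => rw [eq_C_of_natDegree_eq_zero (hconst k).2, aeval_C]
        rfl
      rw [hB'] at h1 h2
      rw [hA] at h2
      rw [← h2, mul_div_cancel_right₀ _ h1]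

end Pool.Agent.LGO.P
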