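import Mathlib
import Pool.Agent.LGO.P.Main
import Pool.Agent.LGO.H.Main
import Pool.Agent.ZPB.BInt

/-!
# LGO/P: readable form of the theorem for rational curves

`ratVal A B c` for `c` in `P¹(Qb) = Option Qb`: homogeneous coordinates of the value of `A / B` at `c`.
-/

namespace Pool.Agent.LGO.P

open Polynomial UpperHalfPlane Pool.Agent.Hhelper14.ZP Pool.Agent.Hhelper14.ZPL Pool.Agent.LGO
  Pool.Agent.LGO.U Pool.Agent.ZPB

/-- homogeneous coordinates `(a : b)` of the value of the rational function `A / B` at the point `c` of the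
projective line (`none` is the point at infinity) -/
noncomputable def ratVal (A B : Polynomial Qb) : Option Qb → Qb × Qb
  | some c => (A.eval c, B.eval c)
  | none => (A.coeff (max A.natDegree B.natDegree), B.coeff (max A.natDegree B.natDegree))

/-- the point `(a : b)` of the projective line lies in `W` -/
def InW (W : ValuationSubring ℂ) (v : Qb × Qb) : Prop := ∃ z ∈ W, (v.1 : ℂ) = z * (v.2 : ℂ)

/-- The condition at the points at infinity: for every pole `c` of one of the functions `A k / B k` and every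
valuation ring `W` of `ℂ` containing the inverses of the primes in `P` there are related `i`, `j` such that the value
of `A j / B j` at `c` lies in `W` and the value of `A i / B i` does not. -/
def CuspCond {n : ℕ} (A B : Fin n → Polynomial Qb) (r : Fin n → Fin n → Prop) (P : Set ℕ) : Prop :=
  ∀ (W : ValuationSubring ℂ) (c : Option Qb), (∀ p ∈ P, p.Prime → (p : ℂ)⁻¹ ∈ W) →
    (∃ k, (ratVal (A k) (B k) c).2 = 0) →
      ∃ i j, r i j ∧ InW W (ratVal (A j) (B j) c) ∧ ¬ InW W (ratVal (A i) (B i) c)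

private theorem Final_mem {W : ValuationSubring ℂ} {p : ℕ} (hp : p.Prime) (hW : (p : ℂ)⁻¹ ∉ W)
    {x : ℂ} (hx : IntAt p x) : x ∈ W := by
  obtain ⟨m, hm, hmx⟩ := hx
  have h1 : (m : ℂ) * x ∈ W := Int_mem W hmx
  have hco : IsCoprime (m : ℤ) (p : ℤ) := by
    rw [Nat.isCoprime_iff_coprime]
    exact ((Nat.Prime.coprime_iff_not_dvd hp).2 hm).symm
  obtain ⟨a, b, hab⟩ := hco
  have hab' : (a : ℂ) * (m : ℂ) + (b : ℂ) * (p : ℂ) = 1 := by exact_mod_cast hab
  have hvp : W.valuation (p : ℂ) < 1 := by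
    by_contra hcon
    rw [not_lt] at hcon
    apply hW
    rw [← W.valuation_le_one_iff, map_inv₀]
    exact inv_le_one_of_one_le₀ hcon
  have hvb : W.valuation ((b : ℂ) * (p : ℂ)) < 1 := by
    rw [map_mul, mul_comm]
    exact mul_lt_one_of_lt_of_le hvp (Int_intCast W b)
  have hv : W.valuation ((a : ℂ) * (m : ℂ)) = 1 := by
    have e : (a : ℂ) * (m : ℂ) = 1 - (b : ℂ) * (p : ℂ) := by linear_combination hab'
    rw [e]
    exact Valuation.map_one_sub_of_lt _ hvb
  have h2 : ((a : ℂ) * (m : ℂ)) * x ∈ W := by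
    rw [mul_assoc]
    exact MulMemClass.mul_mem (intCast_mem W a) h1
  rw [← W.valuation_le_one_iff, map_mul, hv, one_mul] at h2
  exact (W.valuation_le_one_iff _).1 h2

theorem P_readable {n : ℕ} {V E : Set (Fin n → ℂ)} (A B : Fin n → Polynomial Qb)
    (hc : ∀ i, IsCoprime (A i) (B i)) (hB : ∀ i, B i ≠ 0) (hE : E.Finite)
    (hpar : ∀ x ∈ V, x ∉ E → ∃ t : ℂ, ∀ i, (aeval t (B i) : ℂ) ≠ 0 ∧
      x i * aeval t (B i) = aeval t (A i))
    (r : Fin n → Fin n → Prop) (hnc : ∀ i j, r i j → 0 < max (A j).natDegree (B j).natDegree)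
    (P : Set ℕ) (hcusp : CuspCond A B r P) :
    ∃ C : ℕ, ∀ x ∈ V, (∀ p ∈ P, p.Prime → ∀ i, IntAt p (x i)) →
      (∀ i j, r i j → HeckeRel (x i) (x j) ∧ ∀ τ, jInv τ = x j → ¬ IsCM τ) →
      ∀ (K : IntermediateField ℚ ℂ) [FiniteDimensional ℚ K] (hK : ∀ i, x i ∈ K),
        (∀ i (σ : K →+* ℂ), ‖σ ⟨x i, hK i⟩‖ ≤ Real.exp (C * (Module.finrank ℚ K : ℝ) ^ C)) ∧
        ∀ i j, HeckeRel (x i) (x j) → (∀ τ, jInv τ = x i → ¬ IsCM τ) →
          ∃ N : ℕ, 0 < N ∧ IsogDeg N (x i) (x j) ∧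
            (N : ℝ) ≤ C * (Module.finrank ℚ K : ℝ) ^ C := by
  obtain ⟨C, hC⟩ := P_main (V := V) A B hc hB r hnc
    {W : ValuationSubring ℂ | ∃ p ∈ P, p.Prime ∧ (p : ℂ)⁻¹ ∉ W} (by
      rintro ⟨p, -, -, h⟩
      exact h (ValuationSubring.mem_top _)) (by
      intro W c hW hk
      have hW' : ∀ p ∈ P, p.Prime → (p : ℂ)⁻¹ ∈ W := by
        intro p hp hpp
        by_contra h
        exact hW ⟨p, hp, hpp, h⟩
      obtain ⟨i, j, hij, hj, hi⟩ := hcusp W (some c) hW' hk
      exact ⟨i, j, hij, hi, hj⟩) (by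
      intro W hW hk
      have hW' : ∀ p ∈ P, p.Prime → (p : ℂ)⁻¹ ∈ W := by
        intro p hp hpp
        by_contra h
        exact hW ⟨p, hp, hpp, h⟩
      obtain ⟨k, hk⟩ := hk
      obtain ⟨i, j, hij, hj, hi⟩ := hcusp W none hW' ⟨k, by
        show (B k).coeff (max (A k).natDegree (B k).natDegree) = 0
        rw [max_eq_left hk.le]
        exact coeff_eq_zero_of_natDegree_lt hk⟩
      exact ⟨i, j, hij, hi, hj⟩) hE hpar
  refine ⟨C ^ C + C, fun x hxV hxP hx K _ hK => ?_⟩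
  obtain ⟨h1, h2⟩ := hC x hxV (by
    rintro W ⟨p, hp, hpp, hW⟩ k
    exact Final_mem hpp hW (hxP p hp hpp k)) (fun i j hij => ⟨(hx i j hij).2,
      heckeRel_iff.1 (hx i j hij).1⟩) K hK
  have hD : (1 : ℝ) ≤ Module.finrank ℚ K := by
    exact_mod_cast Module.finrank_pos (R := ℚ) (M := K)
  constructor
  · intro i σ
    obtain ⟨s, hs⟩ := exists_aut K σ
    rw [← hs]
    exact (h1 i s).trans (Real.exp_le_exp.2 (main_pow hD))
  · intro i j hij hcm
    have hiso := heckeRel_iff.1 hij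
    obtain ⟨h3, h4⟩ := mdeg_spec hiso
    exact ⟨_, h3, h4, (h2 i j hcm hiso).trans (main_pow hD)⟩

end Pool.Agent.LGO.P
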